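import Pool.Agent.Helper68_HNF.Eng2
import Pool.Agent.Helper71_HNF.StmtE

/-! Squad HNF, modules E2OWN and E2STEP. -/

set_option autoImplicit false

namespace Pool.Agent.HNF.H68

open Topology Set Filter

/-- E2OWN -/
theorem e2own : E2OwnStmt := by
  intro G _ _ _ _ h N A' hA'
  obtain ⟨e, he, a, h1, h2, h3⟩ := seq N h A' hA'
  exact ⟨e, a, he, h1, h2, h3⟩

theorem srv_iff {G : Type} [Group G] [TopologicalSpace G] (N : LNorm G) (B β : Set G)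
    (Q : Set (G × ℝ)) : HNF.Srv N B β Q ↔ H68.Srv N B β Q := by
  unfold HNF.Srv H68.Srv
  have : ∀ x c : G, N.N (c⁻¹ * x) = dd N x c := fun x c => by
    rw [dd_comm]; rfl
  simp only [this]

/-- E2STEP -/
theorem e2step : E2StepStmt := by
  classical
  intro G _ _ _ _ N A' e a hOwn t p hpt B Q β hβ hQf hQpos hSrv C hC Z hZ ρ hρ hρ1 hlev
  -- a square root of `β`
  obtain ⟨U, hU, hUU⟩ : ∃ U ∈ 𝓝 (1 : G), ∀ s ∈ U, ∀ s' ∈ U, s * s' ∈ β := by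
    have h1 : Tendsto (fun x : G × G => x.1 * x.2) (𝓝 (1, 1)) (𝓝 1) := by
      have := (continuous_mul (M := G)).tendsto (1, 1)
      simpa using this
    have h2 := h1 hβ
    rw [nhds_prod_eq, mem_map, mem_prod_iff] at h2
    obtain ⟨U₁, hU₁, U₂, hU₂, h3⟩ := h2
    exact ⟨U₁ ∩ U₂, inter_mem hU₁ hU₂, fun s hs s' hs' => h3 (mk_mem_prod hs.1 hs'.2)⟩
  have hsrvp := (srv_iff N _ _ _).mp (hSrv p hpt)
  obtain ⟨τ, hτ, m, ha, hb, b, hbU, hbe⟩ := step N (hQf p) (hQpos p) (mem_of_mem_nhds hβ) hsrvp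
    hOwn.sep hOwn.disp hC hZ (ρ := ρ) (η := ρ / 1000) (by linarith) hlev hU
  have hY : ((fun ζ => τ⁻¹ * a m * ζ) '' Z).Finite := hZ.image _
  have hcomm : ∀ x c : G, N.N (c⁻¹ * x) = dd N x c := fun x c => by
    rw [dd_comm]; rfl
  refine ⟨τ, hτ, m, {s | s ∈ U ∧ ∀ y ∈ (fun ζ => τ⁻¹ * a m * ζ) '' Z, dd N (s * y) y < ρ / 8},
    ?_, ?_, ?_, ?_, ?_⟩
  · have h1 : (⋂ y ∈ (fun ζ => τ⁻¹ * a m * ζ) '' Z, {s : G | dd N (s * y) y < ρ / 8}) ∈
        𝓝 (1 : G) := by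
      rw [biInter_mem hY]
      exact fun y _ => move_nhds N y (by linarith)
    filter_upwards [hU, h1] with s hs hs1
    refine ⟨hs, fun y hy => ?_⟩
    simp only [mem_iInter] at hs1
    exact hs1 y hy
  · rintro s ⟨hs, -⟩
    have := hUU s hs 1 (mem_of_mem_nhds hU)
    rwa [mul_one] at this
  · intro x hx c hc
    rw [hcomm]
    exact ha x hx c hc
  · intro ζ hζ c hc
    rw [hcomm]
    exact hb ζ hζ c hc
  · intro w hw
    rw [srv_iff]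
    have h1 := ext (δ := ρ / 8) hY hUU (mem_of_mem_nhds hU) hbU (r₀ := ρ / 2) (by
      rintro _ ⟨ζ, hζ, rfl⟩ k k' hk
      exact hbe ζ hζ k k' hk) ((srv_iff N _ _ _).mp (hSrv w hw))
    refine h1.mono subset_rfl ?_
    rintro x (hx | ⟨ζ, hζ, rfl⟩)
    · exact Or.inl hx
    · refine Or.inr ⟨_, ⟨ζ, hζ, rfl⟩, ?_⟩
      rw [Prod.mk.injEq]
      exact ⟨rfl, by ring⟩

end Pool.Agent.HNF.H68
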