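import Pool.Agent.Helper71_HNF.Stmt

/-!
# Squad HNF: group theoretic core of engine II

SEQ (the own sequence of a node), EXT (extension of the served list), THIN, STEP.
-/

set_option autoImplicit false

namespace Pool.Agent.HNF.H68

open Topology Set Filter

variable {G : Type} [Group G] [TopologicalSpace G]

/-- the left invariant distance -/
def dd (N : LNorm G) (x y : G) : ℝ := N.N (x⁻¹ * y)

theorem dd_self (N : LNorm G) (x : G) : dd N x x = 0 := by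
  unfold dd; rw [inv_mul_cancel, N.one]

theorem dd_comm (N : LNorm G) (x y : G) : dd N x y = dd N y x := by
  unfold dd
  rw [← N.inv (x⁻¹ * y)]
  congr 1
  group

theorem dd_triangle (N : LNorm G) (x y z : G) : dd N x z ≤ dd N x y + dd N y z := by
  unfold dd
  have : x⁻¹ * z = (x⁻¹ * y) * (y⁻¹ * z) := by group
  rw [this]
  exact N.mul_le _ _

theorem dd_left (N : LNorm G) (g x y : G) : dd N (g * x) (g * y) = dd N x y := by
  unfold dd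
  congr 1
  group

theorem dd_nonneg (N : LNorm G) (x y : G) : 0 ≤ dd N x y := by
  have h := dd_triangle N x y x
  rw [dd_self, dd_comm N y x] at h
  linarith

/-- ball around `1` is a neighbourhood of `1` -/
theorem ball_nhds (N : LNorm G) {ε : ℝ} (hε : 0 < ε) : {x : G | N.N x < ε} ∈ 𝓝 (1 : G) := by
  have h := N.cont.continuousAt (x := (1 : G))
  have h2 : N.N ⁻¹' Iio ε ∈ 𝓝 (1 : G) := h (by
    rw [N.one]
    exact Iio_mem_nhds hε)
  exact h2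

/-- conjugated balls are neighbourhoods of `1` -/
theorem move_nhds [IsTopologicalGroup G] (N : LNorm G) (y : G) {δ : ℝ} (hδ : 0 < δ) :
    {s : G | dd N (s * y) y < δ} ∈ 𝓝 (1 : G) := by
  have h : Continuous fun s : G => dd N (s * y) y := by
    unfold dd
    exact N.cont.comp (by fun_prop)
  have h2 : (fun s : G => dd N (s * y) y) ⁻¹' Iio δ ∈ 𝓝 (1 : G) := h.continuousAt (by
    simp only [one_mul, dd_self]
    exact Iio_mem_nhds hδ)
  exact h2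

/-- SEQ: the own sequence of a node of engine II -/
theorem seq [IsTopologicalGroup G] (N : LNorm G) (h : ∀ W ∈ 𝓝 (1 : G), ¬ Phi W)
    (A' : Set G) (hA : A' ∈ 𝓝 (1 : G)) :
    ∃ e : ℝ, 0 < e ∧ ∃ a : ℕ → G, (∀ m, a m ∈ A') ∧
      (∀ m m', m ≠ m' → e ≤ dd N (a m) (a m')) ∧
      ∀ U ∈ 𝓝 (1 : G), ∃ m₀, ∀ m ≥ m₀, ∃ b : ℕ → G, (∀ k, b k ∈ U) ∧
        ∀ k k', k ≠ k' → e ≤ dd N (b k * a m) (b k' * a m) := by
  have hW : A' ∩ A'⁻¹ ∈ 𝓝 (1 : G) := by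
    refine inter_mem hA ?_
    have h1 : Tendsto (fun x : G => x⁻¹) (𝓝 1) (𝓝 1) := by
      have := (continuous_inv (G := G)).tendsto 1
      rwa [inv_one] at this
    exact h1 hA
  have hP := h _ hW
  unfold Phi at hP
  push Not at hP
  obtain ⟨V, hV, hP⟩ := hP
  obtain ⟨e₀, he₀, heV⟩ := N.basis V hV
  have hII : ∀ U ∈ 𝓝 (1 : G), ∃ x ∈ A', ∃ b : ℕ → G, (∀ k, b k ∈ U) ∧
      ∀ k k', k ≠ k' → e₀ ≤ dd N (b k * x) (b k' * x) := by
    intro U hU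
    have hU' : U⁻¹ ∈ 𝓝 (1 : G) := by
      have h1 : Tendsto (fun x : G => x⁻¹) (𝓝 1) (𝓝 1) := by
        have := (continuous_inv (G := G)).tendsto 1
        rwa [inv_one] at this
      exact h1 hU
    obtain ⟨x, hx, c, hc, hcc⟩ := hP _ hU'
    refine ⟨x⁻¹, hx.2, fun k => (c k)⁻¹, fun k => hc k, fun k k' hk => ?_⟩
    by_contra hlt
    push Not at hlt
    apply hcc k k' hk
    apply heV
    have : x * c k * (c k')⁻¹ * x⁻¹ = ((c k)⁻¹ * x⁻¹)⁻¹ * ((c k')⁻¹ * x⁻¹) := by group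
    rw [this]
    exact hlt
  choose x hxA b hbU hbe using fun m : ℕ =>
    hII {y : G | N.N y < 1 / ((m : ℝ) + 1)} (ball_nhds N (by positivity))
  have hev : ∀ U ∈ 𝓝 (1 : G), ∃ m₀, ∀ m ≥ m₀, ∀ k, b m k ∈ U := by
    intro U hU
    obtain ⟨ε, hε, hεU⟩ := N.basis U hU
    obtain ⟨m₀, hm₀⟩ := exists_nat_gt (1 / ε)
    refine ⟨m₀, fun m hm k => hεU _ ?_⟩
    have h1 : N.N (b m k) < 1 / ((m : ℝ) + 1) := hbU m k
    refine h1.trans_le ?_
    rw [div_le_iff₀ (by positivity)]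
    rw [div_lt_iff₀ hε] at hm₀
    have h2 : (m₀ : ℝ) ≤ m := by exact_mod_cast hm
    nlinarith
  have hfin : ∀ y : G, {m : ℕ | dd N y (x m) < e₀ / 8}.Finite := by
    intro y
    by_contra hinf
    have hinf : {m : ℕ | dd N y (x m) < e₀ / 8}.Infinite := hinf
    obtain ⟨m₁, hm₁⟩ := hinf.nonempty
    obtain ⟨m₀, hm₀⟩ := hev _ (move_nhds N (x m₁) (δ := e₀ / 8) (by linarith))
    obtain ⟨m, hm, hmm⟩ := hinf.exists_gt m₀
    have h1 := hbe m 0 1 (by norm_num)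
    have h2 : ∀ k, dd N (b m k * x m) (x m₁) < 3 * e₀ / 8 := by
      intro k
      have h3 : dd N (b m k * x m₁) (x m₁) < e₀ / 8 := hm₀ m hmm.le k
      have h4 := dd_triangle N (b m k * x m) (b m k * x m₁) (x m₁)
      rw [dd_left] at h4
      have h5 := dd_triangle N (x m) y (x m₁)
      rw [dd_comm N (x m) y] at h5
      have h6 : dd N y (x m) < e₀ / 8 := hm
      have h7 : dd N y (x m₁) < e₀ / 8 := hm₁
      linarith
    have h3 := dd_triangle N (b m 0 * x m) (x m₁) (b m 1 * x m)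
    rw [dd_comm N (x m₁)] at h3
    have h4 := h2 0
    have h5 := h2 1
    linarith
  obtain ⟨σ, -, hσ⟩ := exists_seq_of_forall_finset_exists (fun _ : ℕ => True)
    (fun m m' => m < m' ∧ e₀ / 8 ≤ dd N (x m) (x m')) (by
      intro s _
      have h1 : (⋃ m ∈ s, {m' : ℕ | dd N (x m) (x m') < e₀ / 8} ∪ Iic m).Finite := by
        refine Set.Finite.biUnion s.finite_toSet fun m _ => (hfin _).union (finite_Iic m)
      obtain ⟨m', hm'⟩ := h1.infinite_compl.nonempty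
      refine ⟨m', trivial, fun m hm => ?_⟩
      simp only [mem_compl_iff, mem_iUnion, not_exists] at hm'
      have h2 := hm' m hm
      rw [mem_union, not_or] at h2
      refine ⟨not_le.mp h2.2, not_lt.mp h2.1⟩)
  have hmono : StrictMono σ := fun m m' hm => (hσ m m' hm).1
  refine ⟨e₀ / 8, by linarith, fun m => x (σ m), fun m => hxA _, ?_, ?_⟩
  · intro m m' hmm
    rcases lt_or_gt_of_ne hmm with h1 | h1
    · exact (hσ m m' h1).2
    · rw [dd_comm]; exact (hσ m' m h1).2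
  · intro U hU
    obtain ⟨m₀, hm₀⟩ := hev U hU
    refine ⟨m₀, fun m hm => ⟨b (σ m), hm₀ _ (hm.trans (hmono.id_le m)), fun k k' hk => ?_⟩⟩
    have := hbe (σ m) k k' hk
    linarith

/-- the served list `Q` is served from `B` with reserve `β` -/
def Srv (N : LNorm G) (B β : Set G) (Q : Set (G × ℝ)) : Prop :=
  ∀ C : Set G, C.Finite → ∃ τ ∈ B, (∀ s ∈ β, τ * s ∈ B) ∧
    ∀ q ∈ Q, ∀ c ∈ C, ∀ s ∈ β, q.2 ≤ dd N (τ * s * q.1) c

theorem Srv.mono {N : LNorm G} {B β β' : Set G} {Q Q' : Set (G × ℝ)} (h : Srv N B β Q)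
    (hβ : β' ⊆ β) (hQ : Q' ⊆ Q) : Srv N B β' Q' := by
  intro C hC
  obtain ⟨τ, h1, h2, h3⟩ := h C hC
  exact ⟨τ, h1, fun s hs => h2 s (hβ hs), fun q hq c hc s hs => h3 q (hQ hq) c hc s (hβ hs)⟩

theorem Srv.empty (N : LNorm G) {B β : Set G} (h1 : (1 : G) ∈ B) (h : β ⊆ B) :
    Srv N B β ∅ :=
  fun _ _ => ⟨1, h1, fun s hs => by rw [one_mul]; exact h hs, fun q hq => absurd hq (by simp)⟩

/-- EXT -/
theorem ext {N : LNorm G} {B β U : Set G} {Q : Set (G × ℝ)} {Y : Set G} (hY : Y.Finite)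
    {r₀ δ : ℝ} {b : ℕ → G} (hU : ∀ s ∈ U, ∀ s' ∈ U, s * s' ∈ β) (hU1 : (1 : G) ∈ U)
    (hb : ∀ k, b k ∈ U)
    (hbY : ∀ y ∈ Y, ∀ k k', k ≠ k' → r₀ ≤ dd N (b k * y) (b k' * y)) (h : Srv N B β Q) :
    Srv N B {s | s ∈ U ∧ ∀ y ∈ Y, dd N (s * y) y < δ}
      (Q ∪ (fun y => (y, r₀ / 2 - δ)) '' Y) := by
  intro C hC
  obtain ⟨τ, hτB, hτs, hτQ⟩ := h C hC
  -- choose `k` outside a finite set
  have hfin : (⋃ y ∈ Y, ⋃ c ∈ C, {k : ℕ | dd N (b k * y) (τ⁻¹ * c) < r₀ / 2}).Finite := by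
    refine Set.Finite.biUnion hY fun y hy => Set.Finite.biUnion hC fun c hc => ?_
    refine Set.Subsingleton.finite ?_
    intro k hk k' hk'
    by_contra hne
    have h1 := hbY y hy k k' hne
    have h2 := dd_triangle N (b k * y) (τ⁻¹ * c) (b k' * y)
    rw [dd_comm N (τ⁻¹ * c)] at h2
    have h3 : dd N (b k * y) (τ⁻¹ * c) < r₀ / 2 := hk
    have h4 : dd N (b k' * y) (τ⁻¹ * c) < r₀ / 2 := hk'
    linarith
  obtain ⟨k, hk⟩ := hfin.infinite_compl.nonempty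
  simp only [mem_compl_iff, mem_iUnion, not_exists] at hk
  have hbk : b k ∈ β := by
    have := hU (b k) (hb k) 1 hU1
    rwa [mul_one] at this
  refine ⟨τ * b k, hτs _ hbk, ?_, ?_⟩
  · rintro s ⟨hs, -⟩
    rw [mul_assoc]
    exact hτs _ (hU _ (hb k) _ hs)
  · rintro q (hq | ⟨y, hy, rfl⟩) c hc s ⟨hs, hsy⟩
    · have := hτQ q hq c hc (b k * s) (hU _ (hb k) _ hs)
      rwa [← mul_assoc] at this
    · have h1 : ¬ dd N (b k * y) (τ⁻¹ * c) < r₀ / 2 := hk y hy c hc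
      have h2 : dd N (τ * b k * s * y) (τ * b k * y) = dd N (s * y) y := by
        rw [mul_assoc (τ * b k) s y, dd_left]
      have h3 : dd N (τ * b k * y) c = dd N (b k * y) (τ⁻¹ * c) := by
        rw [← dd_left N τ (b k * y) (τ⁻¹ * c), mul_inv_cancel_left, mul_assoc]
      have h4 := dd_triangle N (τ * b k * y) (τ * b k * s * y) c
      rw [dd_comm N (τ * b k * y) (τ * b k * s * y), h2, h3] at h4
      have h5 := hsy y hy
      simp only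
      push Not at h1
      linarith

/-- THIN -/
theorem thin (N : LNorm G) (a : ℕ → G) (P : Finset (G × ℝ)) :
    ∃ M : Set ℕ, M.Infinite ∧ ∀ p ∈ P,
      (∃ c', ∀ m ∈ M, dd N (a m * p.1) c' < p.2 / 10) ∨
      ∀ y, {m ∈ M | dd N (a m * p.1) y < p.2 / 10}.Finite := by
  classical
  induction P using Finset.induction_on with
  | empty => exact ⟨univ, infinite_univ, fun p hp => absurd hp (Finset.notMem_empty p)⟩
  | insert p P hp ih =>
    obtain ⟨M, hM, hMP⟩ := ih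
    by_cases hy : ∃ y, {m ∈ M | dd N (a m * p.1) y < p.2 / 10}.Infinite
    · obtain ⟨y, hy⟩ := hy
      refine ⟨_, hy, fun p' hp' => ?_⟩
      rcases Finset.mem_insert.mp hp' with rfl | hp'
      · exact Or.inl ⟨y, fun m hm => hm.2⟩
      · rcases hMP p' hp' with ⟨c', hc'⟩ | h2
        · exact Or.inl ⟨c', fun m hm => hc' m hm.1⟩
        · exact Or.inr fun y' => (h2 y').subset fun m hm => ⟨hm.1.1, hm.2⟩
    · push Not at hy
      refine ⟨M, hM, fun p' hp' => ?_⟩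
      rcases Finset.mem_insert.mp hp' with rfl | hp'
      · exact Or.inr fun y => by simpa using hy y
      · exact hMP p' hp'

/-- STEP: the choice of `v` at a node of engine II with parent data `A', B', a, e, Q, β`. `C` is a
finite set of points to be avoided, `Z` the finite set of the relevant points `ζ_i`. -/
theorem step [IsTopologicalGroup G] (N : LNorm G) {B β : Set G} {Q : Set (G × ℝ)}
    (hQ : Q.Finite) (hQpos : ∀ q ∈ Q, 0 < q.2) (hβ1 : (1 : G) ∈ β) (hsrv : Srv N B β Q)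
    {e : ℝ} {a : ℕ → G} (hae : ∀ m m', m ≠ m' → e ≤ dd N (a m) (a m'))
    (hstar : ∀ U ∈ 𝓝 (1 : G), ∃ m₀, ∀ m ≥ m₀, ∃ b : ℕ → G, (∀ k, b k ∈ U) ∧
        ∀ k k', k ≠ k' → e ≤ dd N (b k * a m) (b k' * a m))
    {C Z : Set G} (hC : C.Finite) (hZ : Z.Finite) {ρ η : ℝ} (hη : 4 * η ≤ ρ)
    (hlev : ∀ ζ ∈ Z, ∃ x, dd N ζ x < η ∧ Lev N e x ρ) {U : Set G} (hU : U ∈ 𝓝 (1 : G)) :
    ∃ τ ∈ B, ∃ m : ℕ,
      (∀ q ∈ Q, ∀ c ∈ C, q.2 / 10 ≤ dd N ((τ⁻¹ * a m)⁻¹ * q.1) c) ∧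
      (∀ ζ ∈ Z, ∀ c ∈ C, ρ / 4 ≤ dd N (τ⁻¹ * a m * ζ) c) ∧
      ∃ b : ℕ → G, (∀ k, b k ∈ U) ∧ ∀ ζ ∈ Z, ∀ k k', k ≠ k' →
        ρ / 2 ≤ dd N (b k * (τ⁻¹ * a m * ζ)) (b k' * (τ⁻¹ * a m * ζ)) := by
  classical
  -- thinning
  obtain ⟨M, hM, hMP⟩ := thin N a (hC.toFinset ×ˢ (hQ.toFinset.image Prod.snd))
  have hMP' : ∀ c ∈ C, ∀ q ∈ Q, (∃ c', ∀ m ∈ M, dd N (a m * c) c' < q.2 / 10) ∨
      ∀ y, {m ∈ M | dd N (a m * c) y < q.2 / 10}.Finite := fun c hc q hq =>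
    hMP (c, q.2) (Finset.mem_product.mpr ⟨hC.mem_toFinset.mpr hc,
      Finset.mem_image.mpr ⟨q, hQ.mem_toFinset.mpr hq, rfl⟩⟩)
  -- the limit points
  have hC' : ∃ C' : Set G, C'.Finite ∧ ∀ c ∈ C, ∀ q ∈ Q,
      (∃ c' ∈ C', ∀ m ∈ M, dd N (a m * c) c' < q.2 / 10) ∨
      ∀ y, {m ∈ M | dd N (a m * c) y < q.2 / 10}.Finite := by
    choose! f hf using fun (c : G) (q : G × ℝ)
      (h : ∃ c', ∀ m ∈ M, dd N (a m * c) c' < q.2 / 10) => h
    refine ⟨(fun p : G × (G × ℝ) => f p.1 p.2) '' (C ×ˢ Q), (hC.prod hQ).image _, ?_⟩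
    intro c hc q hq
    rcases hMP' c hc q hq with h | h
    · exact Or.inl ⟨f c q, ⟨(c, q), ⟨hc, hq⟩, rfl⟩, hf c q h⟩
    · exact Or.inr h
  obtain ⟨C', hC'f, hC'⟩ := hC'
  obtain ⟨τ, hτB, -, hτ⟩ := hsrv C' hC'f
  -- the level condition
  have hlev' : ∀ ζ ∈ Z, ∀ u u' : G, e ≤ dd N u u' → ρ / 2 ≤ dd N (u * ζ) (u' * ζ) := by
    intro ζ hζ u u' huu
    obtain ⟨x, hx, hxl⟩ := hlev ζ hζ
    have h1 : ρ ≤ N.N (x⁻¹ * (u⁻¹ * u') * x) := hxl _ huu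
    have h2 : dd N (u * x) (u' * x) = N.N (x⁻¹ * (u⁻¹ * u') * x) := by
      unfold dd; congr 1; group
    rw [← h2] at h1
    have h3 := dd_triangle N (u * x) (u * ζ) (u' * x)
    have h4 := dd_triangle N (u * ζ) (u' * ζ) (u' * x)
    rw [dd_left] at h3 h4
    rw [dd_comm N x ζ] at h3
    linarith
  -- the bad sets
  have hbad1 : {m ∈ M | ∃ q ∈ Q, ∃ c ∈ C, dd N (τ * q.1) (a m * c) < q.2 / 10}.Finite := by
    have h1 : {m ∈ M | ∃ q ∈ Q, ∃ c ∈ C, dd N (τ * q.1) (a m * c) < q.2 / 10} ⊆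
        ⋃ q ∈ Q, ⋃ c ∈ C, {m ∈ M | dd N (τ * q.1) (a m * c) < q.2 / 10} := by
      rintro m ⟨hm, q, hq, c, hc, hmc⟩
      simp only [mem_iUnion]
      exact ⟨q, hq, c, hc, hm, hmc⟩
    refine Set.Finite.subset (hQ.biUnion fun q hq => hC.biUnion fun c hc => ?_) h1
    rcases hC' c hc q hq with ⟨c', hc', hcc⟩ | h2
    · refine Set.Finite.subset Set.finite_empty ?_
      rintro m ⟨hm, hmc⟩
      have h3 := hτ q hq c' hc' 1 hβ1
      rw [mul_one] at h3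
      have h4 := dd_triangle N (τ * q.1) (a m * c) c'
      have h5 := hcc m hm
      have h6 := hQpos q hq
      exfalso
      linarith
    · refine (h2 (τ * q.1)).subset ?_
      rintro m ⟨hm, hmc⟩
      exact ⟨hm, by rw [dd_comm]; exact hmc⟩
  have hbad2 : {m : ℕ | ∃ ζ ∈ Z, ∃ c ∈ C, dd N (a m * ζ) (τ * c) < ρ / 4}.Finite := by
    have h1 : {m : ℕ | ∃ ζ ∈ Z, ∃ c ∈ C, dd N (a m * ζ) (τ * c) < ρ / 4} ⊆
        ⋃ ζ ∈ Z, ⋃ c ∈ C, {m : ℕ | dd N (a m * ζ) (τ * c) < ρ / 4} := by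
      rintro m ⟨ζ, hζ, c, hc, hmc⟩
      simp only [mem_iUnion]
      exact ⟨ζ, hζ, c, hc, hmc⟩
    refine Set.Finite.subset (hZ.biUnion fun ζ hζ => hC.biUnion fun c hc => ?_) h1
    refine Set.Subsingleton.finite ?_
    intro m hm m' hm'
    by_contra hne
    have h2 := hlev' ζ hζ _ _ (hae m m' hne)
    have h3 := dd_triangle N (a m * ζ) (τ * c) (a m' * ζ)
    rw [dd_comm N (τ * c)] at h3
    have h4 : dd N (a m * ζ) (τ * c) < ρ / 4 := hm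
    have h5 : dd N (a m' * ζ) (τ * c) < ρ / 4 := hm'
    linarith
  obtain ⟨m₀, hm₀⟩ := hstar ((fun s => τ⁻¹ * s * τ) ⁻¹' U) (by
    have h1 : Continuous fun s : G => τ⁻¹ * s * τ := by fun_prop
    refine h1.continuousAt (x := 1) ?_
    simpa using hU)
  obtain ⟨m, ⟨hmM, hm1, hm2⟩, hm3⟩ := (hM.sdiff (hbad1.union hbad2)).exists_gt m₀ |>.imp
    fun m hm => (⟨⟨hm.1.1, fun h => hm.1.2 (Or.inl h), fun h => hm.1.2 (Or.inr h)⟩, hm.2⟩ :
      (m ∈ M ∧ m ∉ {m ∈ M | ∃ q ∈ Q, ∃ c ∈ C, dd N (τ * q.1) (a m * c) < q.2 / 10} ∧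
        m ∉ {m : ℕ | ∃ ζ ∈ Z, ∃ c ∈ C, dd N (a m * ζ) (τ * c) < ρ / 4}) ∧ m₀ < m)
  obtain ⟨b, hbU, hbe⟩ := hm₀ m hm3.le
  refine ⟨τ, hτB, m, ?_, ?_, fun k => τ⁻¹ * b k * τ, fun k => hbU k, ?_⟩
  · intro q hq c hc
    by_contra hlt
    push Not at hlt
    refine hm1 ⟨hmM, q, hq, c, hc, ?_⟩
    have h1 : dd N ((τ⁻¹ * a m)⁻¹ * q.1) c = dd N (τ * q.1) (a m * c) := by
      rw [← dd_left N (a m) ((τ⁻¹ * a m)⁻¹ * q.1) c]
      congr 1
      group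
    rwa [← h1]
  · intro ζ hζ c hc
    by_contra hlt
    push Not at hlt
    refine hm2 ⟨ζ, hζ, c, hc, ?_⟩
    have h1 : dd N (τ⁻¹ * a m * ζ) c = dd N (a m * ζ) (τ * c) := by
      rw [← dd_left N τ (τ⁻¹ * a m * ζ) c]
      congr 1
      group
    rwa [← h1]
  · intro ζ hζ k k' hk
    have h1 := hlev' ζ hζ _ _ (hbe k k' hk)
    have h2 : ∀ k, τ⁻¹ * b k * τ * (τ⁻¹ * a m * ζ) = τ⁻¹ * (b k * a m * ζ) := fun k => by group
    rw [h2, h2, dd_left]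
    exact h1

end Pool.Agent.HNF.H68
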