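import Pool.Agent.Helper68_HNF.Eng2

/-!
# Squad HNF: local conditions of engine II

`Loc2` is what the recursion (E2REC) produces; E2DED deduces `dec` and `lema` of `Good` from it.
-/

set_option autoImplicit false

namespace Pool.Agent.HNF.H68

open Topology Set Filter

variable {G : Type} [Group G] [TopologicalSpace G]

/-- named point -/
def yy (q : ℕ → G) (D : Dat G) (t i : ℕ) : G := D.g t * q i

/-- relevant index of a node -/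
def Rv (I : Idx) (N : LNorm G) (q : ℕ → G) (D : Dat G) (t i : ℕ) : Prop :=
  i < I.rd t ∧ ∃ x, Rel I N q D t x ∧ dd N (yy q D (I.par t) i) x < D.η (I.th t)

/-- the finite set of points to be avoided at the node `t` -/
def CC (I : Idx) (q : ℕ → G) (D : Dat G) (t : ℕ) : Set G :=
  {c | ∃ t' < t, ∃ i < I.rd t', c = yy q D t' i} ∪ {c | ∃ i < I.rd t, c = yy q D (I.par t) i} ∪
  {c | ∃ i < I.rd t, ∃ o < t, ∃ j < t, ∃ n < t, ∃ k < I.rd n,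
    c = yy q D (I.par t) i * (yy q D o j)⁻¹ * yy q D n k}

/-- the local conditions of engine II -/
structure Loc2 (I : Idx) (N : LNorm G) (q : ℕ → G) (D : Dat G) : Prop where
  g_zero : D.g 0 = 1
  g_succ : ∀ t, 0 < t → D.g t = D.v t * D.g (I.par t)
  A_open : ∀ t, IsOpen (D.A t)
  A_one : ∀ t, (1 : G) ∈ D.A t
  L_open : ∀ t, IsOpen (D.L t)
  L_one : ∀ t, (1 : G) ∈ D.L t
  e_pos : ∀ t, 0 < D.e t
  η_pos : ∀ t, 0 < D.η t
  nest : ∀ t, 0 < t → ∀ a ∈ D.A t, a * D.v t ∈ D.A (I.par t)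
  conv : ∀ c : ℕ → ℕ, (∀ k, 0 < c (k + 1) ∧ I.par (c (k + 1)) = c k) →
    ∃ g : G, ∀ k, g * (D.g (c k))⁻¹ ∈ D.A (c k)
  η_anti : ∀ s t, s ≤ t → D.η t ≤ D.η s
  η_le : ∀ t : ℕ, D.η t ≤ 1 / (1000 * ((t : ℝ) + 1))
  η_conj : ∀ (t : ℕ) (x : G), N.N x < 2 * D.η t → ∀ o < t, ∀ j < t, ∀ n < t, 0 < n →
    ∀ k < I.rd n, N.N (((yy q D o j)⁻¹ * yy q D n k)⁻¹ * x * ((yy q D o j)⁻¹ * yy q D n k)) ≤
      D.η (I.th n)
  A_small : ∀ t, 0 < t → ∀ a ∈ D.A t, ∀ i < I.rd t,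
    dd N (a * yy q D t i) (yy q D t i) < D.η (I.th t)
  AL_small : ∀ t, 0 < t → ∀ a ∈ D.A t, ∀ l ∈ D.L t, ∀ t', 0 < t' → t' < t → ∀ i < I.rd t',
    dd N ((a * l)⁻¹ * yy q D t' i) (yy q D t' i) ≤ D.η (I.th t')
  pa : ∀ t, 0 < t → ∀ t', I.par t < t' → t' < t → ∀ i', Rv I N q D t' i' → ∀ c ∈ CC I q D t,
    1 / (80 * ((I.mp t' : ℝ) + 1)) ≤ dd N ((D.v t)⁻¹ * yy q D t' i') c
  pb : ∀ t, 0 < t → ∀ i, Rv I N q D t i → ∀ c ∈ CC I q D t,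
    1 / (4 * ((I.mp t : ℝ) + 1)) ≤ dd N (D.v t * yy q D (I.par t) i) c

/-- E2DED -/
def E2dedStmt : Prop := ∀ (G : Type) [Group G] [TopologicalSpace G] [IsTopologicalGroup G]
  (I : Idx) (N : LNorm G) (q : ℕ → G) (D : Dat G), Loc2 I N q D → Good I N q D

end Pool.Agent.HNF.H68
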