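import Pool.Agent.Helper71_HNF.Stmt

/-! Squad HNF, module RECT: no rectangle in one universe. -/

set_option autoImplicit false

namespace Pool.Agent.HNF.H68

/-- RECT -/
theorem rect (hrec : RecStmt) (hchn : ChnStmt) (hsepb : SepbStmt) : RectStmt := by
  intro G _ _ _ _ I hI N q D hD u x z hz hx hrel
  -- the relation in the form `P = M * O⁻¹ * N`, with swapped indices
  have hall : ∀ i j : Bool, z j i = z j (!i) * (z (!j) (!i))⁻¹ * z (!j) i := by
    intro i j
    cases i <;> cases j <;> simp only [Bool.not_true, Bool.not_false]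
    · rw [hrel]; group
    · rw [hrel]; group
    · rw [hrel]; group
    · exact hrel
  choose n m c hch using hz
  have hC := fun i j => hchn G I hI N q D u (x i j) (z i j) (n i j) (m i j) (c i j) (hch i j)
  -- a common bound for the separation
  have hsep : ∀ i j i' j' : Bool, ∃ k₀, (i, j) ≠ (i', j') → ∀ k l, k₀ ≤ k → k₀ ≤ l →
      n i j k ≠ n i' j' l := by
    intro i j i' j'
    by_cases h : (i, j) = (i', j')
    · exact ⟨0, fun h' => absurd h h'⟩
    · obtain ⟨k₀, hk⟩ := hsepb G I hI N q D u (x i j) (x i' j') (z i j) (z i' j') (n i j) (m i j)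
        (c i j) (n i' j') (m i' j') (c i' j') (hch i j) (hch i' j') (hx i j i' j' h)
      exact ⟨k₀, fun _ => hk⟩
  choose k₀ hk₀ using hsep
  obtain ⟨K, hK⟩ : ∃ K, ∀ i j i' j', k₀ i j i' j' ≤ K := by
    refine ⟨∑ i, ∑ j, ∑ i', ∑ j', k₀ i j i' j', fun i j i' j' => ?_⟩
    refine le_trans ?_ (Finset.single_le_sum (f := fun i => ∑ j, ∑ i', ∑ j', k₀ i j i' j')
      (fun _ _ => Nat.zero_le _) (Finset.mem_univ i))
    refine le_trans ?_ (Finset.single_le_sum (f := fun j => ∑ i', ∑ j', k₀ i j i' j')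
      (fun _ _ => Nat.zero_le _) (Finset.mem_univ j))
    refine le_trans ?_ (Finset.single_le_sum (f := fun i' => ∑ j', k₀ i j i' j')
      (fun _ _ => Nat.zero_le _) (Finset.mem_univ i'))
    exact Finset.single_le_sum (f := fun j' => k₀ i j i' j')
      (fun _ _ => Nat.zero_le _) (Finset.mem_univ j')
  obtain ⟨i, j, kP, kM, kN, kO, h1, h2, h3, h4, h5, h6⟩ := hrec (fun i j k => n j i (k + K))
    (fun i j a b hab => (hC j i).1 (by omega))
    (fun i j i' j' k l hne => hk₀ j i j' i'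
      (fun h => hne (by
        rw [Prod.mk.injEq] at h ⊢
        exact ⟨h.2, h.1⟩)) _ _
      (le_trans (hK _ _ _ _) (Nat.le_add_left _ _)) (le_trans (hK _ _ _ _) (Nat.le_add_left _ _)))
  obtain ⟨sP, posP, parP, thP, cP, mP⟩ := hC j i
  obtain ⟨sM, posM, parM, thM, cM, mM⟩ := hC j (!i)
  obtain ⟨sN, posN, parN, thN, cN, mN⟩ := hC (!j) i
  obtain ⟨sO, posO, parO, thO, cO, mO⟩ := hC (!j) (!i)
  have eP : kP + 1 + K = kP + K + 1 := by omega
  have eM : kM + 1 + K = kM + K + 1 := by omega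
  rw [eP] at h2 h3 h6
  rw [eM] at h3
  refine hD.lema (c j i (kP + K + 2)) (c j (!i) (kM + K + 2)) (c (!j) (!i) (kO + K + 2))
    (c (!j) i (kN + K + 1)) (posP _) (posM _) (posO _) (posN _) ?_ ?_ ?_ ?_ ?_ ?_ ?_ ?_ ?_ ?_ ?_
    (z j i) ((hch j i).mem _) (z j (!i)) ((hch j (!i)).mem _) (z (!j) (!i))
    ((hch (!j) (!i)).mem _) (z (!j) i) ((hch (!j) i).mem _) (hall i j)
  · rw [parP, thN]
    exact cP _ _ h4
  · rw [thN]
    exact mP _ _ h4
  · rw [parO, thO]
    exact cN _ _ h5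
  · rw [parO, thP]
    exact cO _ _ h6
  · rw [thP]
    exact mO _ _ h6
  · rw [parP, parM]
    calc c j i (kP + K + 1) < pidx (hist u (n j (!i) (kM + K))) := cP _ _ h1
      _ = I.th (c j (!i) (kM + K + 1)) := (thM _).symm
      _ < c j (!i) (kM + K + 1) := I.th_lt _ (posM _)
  · rw [parM, thP]
    exact cM _ _ h2
  · rw [thP]
    exact mM _ _ h2
  · rw [thM]
    exact cP _ _ h3
  · rw [parM]
    exact posM _
  · rw [parO]
    exact posO _

end Pool.Agent.HNF.H68
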