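import Pool.Agent.Helper71_HNF.Stmt

/-! Squad HNF, module SEPB: separated branches have disjoint visit times. -/

set_option autoImplicit false

namespace Pool.Agent.HNF.H68

theorem hist_length (u : Univ) : ∀ n, (hist u n).length = n
  | 0 => rfl
  | n + 1 => by rw [hist, List.length_cons, hist_length u n]

theorem pidx_inj : ∀ s s' : List (ℕ × ℕ), pidx s = pidx s' → s = s'
  | [], [] => fun _ => rfl
  | [], a :: s => fun h => by
    exfalso
    simp only [pidx] at h
    have h1 : 0 = Nat.pair (pidx s) (Nat.pair (a.1 + 1) a.2) := by omega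
    have h2 := Nat.right_le_pair (pidx s) (Nat.pair (a.1 + 1) a.2)
    have h3 := Nat.left_le_pair (a.1 + 1) a.2
    omega
  | a :: s, [] => fun h => by
    exfalso
    simp only [pidx] at h
    have h2 := Nat.right_le_pair (pidx s) (Nat.pair (a.1 + 1) a.2)
    have h3 := Nat.left_le_pair (a.1 + 1) a.2
    omega
  | a :: s, b :: s' => fun h => by
    simp only [pidx] at h
    have h1 : Nat.pair (pidx s) (Nat.pair (a.1 + 1) a.2) =
        Nat.pair (pidx s') (Nat.pair (b.1 + 1) b.2) := by omega
    rw [Nat.pair_eq_pair, Nat.pair_eq_pair] at h1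
    obtain ⟨h2, h3, h4⟩ := h1
    have h5 := pidx_inj s s' h2
    have h6 : a = b := Prod.ext (by omega) h4
    rw [h5, h6]

theorem nidx_inj {s s' : List (ℕ × ℕ)} {m m' : ℕ} {b b' : Bool}
    (h : nidx s m b = nidx s' m' b') : s = s' ∧ m = m' ∧ b = b' := by
  unfold nidx at h
  have hb : b = b' := by
    cases b <;> cases b' <;> simp at h ⊢ <;> omega
  subst hb
  have h1 : Nat.pair (pidx s) m = Nat.pair (pidx s') m' := by
    split_ifs at h <;> omega
  rw [Nat.pair_eq_pair] at h1
  exact ⟨pidx_inj _ _ h1.1, h1.2, rfl⟩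

theorem nidx_pos (s : List (ℕ × ℕ)) (m : ℕ) (b : Bool) : 0 < nidx s m b := by
  unfold nidx
  split_ifs <;> omega

/-- SEPB -/
theorem sepb : SepbStmt := by
  intro G _ _ I hI N q D u x x' z z' n m c n' m' c' h h' hx
  obtain ⟨i, hi⟩ := Function.ne_iff.mp hx
  -- equal nodes have equal pasts
  have key : ∀ k l, c k = c' l → k = l ∧ ∀ j < k, x j = x' j := by
    intro k
    induction k with
    | zero =>
      intro l hl
      cases l with
      | zero => exact ⟨rfl, fun j hj => absurd hj (Nat.not_lt_zero j)⟩
      | succ l =>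
        exfalso
        rw [h.zero, (h'.node l).1] at hl
        have := nidx_pos (hist u (n' l)) (m' l) (x' l)
        omega
    | succ k ih =>
      intro l hl
      cases l with
      | zero =>
        exfalso
        rw [h'.zero, (h.node k).1] at hl
        have := nidx_pos (hist u (n k)) (m k) (x k)
        omega
      | succ l =>
        rw [(h.node k).1, (h'.node l).1] at hl
        obtain ⟨h1, h2, h3⟩ := nidx_inj hl
        have h4 : c k = c' l := by rw [← h.par k, ← h'.par l, h1]
        obtain ⟨h5, h6⟩ := ih l h4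
        subst h5
        refine ⟨rfl, fun j hj => ?_⟩
        rcases Nat.lt_succ_iff_lt_or_eq.mp hj with hj | rfl
        · exact h6 j hj
        · exact h3
  refine ⟨i + 1, fun k l hk hl hkl => hi ?_⟩
  have h1 : c k = c' l := by rw [← h.par k, ← h'.par l, hkl]
  exact (key k l h1).2 i (by omega)

end Pool.Agent.HNF.H68
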